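import Pool.Agent.Helper81.RIP.F2

/-!
# Random rows of a bounded unitary matrix: `k_U(m) ≤ C m log (e d / m)`

There are absolute constants `K`, `C` such that for every `d` there is a unitary (even real
orthogonal) `d × d` matrix `U` with all entries at most `K / √d` in modulus, for which
`k_U(m) ≤ C m log (e d / m)` for all `1 ≤ m ≤ d`.
-/

namespace Pool.Agent.Results.MP_00538b_an.BoundedUnitaryRIP

/-- The matrix formed by the rows of `U` with index in `T` has the `m`-RIP: for a suitable scalar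
`s > 0`, every vector `x` with at most `m` nonzero coordinates satisfies
`‖x‖ ≤ s ‖U_T x‖ ≤ 2 ‖x‖` (Euclidean norms, complex vectors). -/
def HasRIP {d : ℕ} (U : Matrix (Fin d) (Fin d) ℂ) (T : Finset (Fin d)) (m : ℕ) : Prop :=
  ∃ s : ℝ, 0 < s ∧ ∀ x : Fin d → ℂ, (Finset.univ.filter fun j => x j ≠ 0).card ≤ m →
    Real.sqrt (∑ j, ‖x j‖ ^ 2) ≤ s * Real.sqrt (∑ i ∈ T, ‖(Matrix.mulVec U x) i‖ ^ 2) ∧
    s * Real.sqrt (∑ i ∈ T, ‖(Matrix.mulVec U x) i‖ ^ 2) ≤ 2 * Real.sqrt (∑ j, ‖x j‖ ^ 2)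

open Classical in
/-- `k ≤ d` and a uniformly random set of `k` rows of `U` has the `m`-RIP with probability at
least `1/2` (at least half of the `k`-element sets of rows have it). -/
def GoodK {d : ℕ} (U : Matrix (Fin d) (Fin d) ℂ) (m k : ℕ) : Prop :=
  k ≤ d ∧ (d.choose k : ℝ) / 2 ≤
    (((Finset.univ : Finset (Fin d)).powersetCard k).filter fun T => HasRIP U T m).card

/-- `k_U(m)`: the least `k` such that a random `k`-row submatrix of `U` has the `m`-RIP with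
probability at least `1/2`. -/
noncomputable def kRIP {d : ℕ} (U : Matrix (Fin d) (Fin d) ℂ) (m : ℕ) : ℕ :=
  sInf {k | GoodK U m k}

theorem result : ∃ K C : ℝ, ∀ d : ℕ, 1 ≤ d → ∃ U ∈ Matrix.unitaryGroup (Fin d) ℂ,
    (∀ i j, ‖U i j‖ ≤ K / Real.sqrt d) ∧ (∀ i j, (U i j).im = 0) ∧
    ∀ m : ℕ, 1 ≤ m → m ≤ d →
      (∀ k : ℕ, C * m * Real.log (Real.exp 1 * d / m) ≤ k → k ≤ d → GoodK U m k) ∧
      GoodK U m (kRIP U m) ∧ (kRIP U m : ℝ) ≤ C * m * Real.log (Real.exp 1 * d / m) :=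
  Pool.Agent.Helper81.RIP.result

end Pool.Agent.Results.MP_00538b_an.BoundedUnitaryRIP
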